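import Pool.Agent.N273.BR.Stm2

/-!
# The divergent series at the critical point of the second order
-/

set_option autoImplicit false

open Filter Set
open scoped Topology

namespace Pool.Agent.N346.BR

open Pool.Agent.N273.BR

/-- the value of `2k u` -/
noncomputable def TT (j : ℕ) (x : ℝ) : ℝ :=
  (x + Real.log 2) + ((j : ℝ) + 3) * Real.log (x + Real.log 2) + 1

lemma log2_pos : 0 < Real.log 2 := Real.log_pos (by norm_num)

lemma log2_le : Real.log 2 ≤ 1 := by
  have := Real.log_two_lt_d9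
  linarith

lemma llsq {k : ℕ} (hx : 1 ≤ Real.log (Real.log k)) :
    Real.log (Real.log ((k : ℝ) ^ 2)) = Real.log (Real.log k) + Real.log 2 := by
  have hL : Real.log k ≠ 0 := by
    intro h
    rw [h, Real.log_zero] at hx
    linarith
  rw [Real.log_pow, Real.log_mul (by norm_num) hL]
  push_cast
  ring

lemma uu_le {k : ℕ} (hk : 0 < k) (hx : 1 ≤ Real.log (Real.log k)) {c : ℝ} {j : ℕ}
    (hc : c ≤ j + 3) : uu c k ≤ TT j (Real.log (Real.log k)) / (2 * k) := by
  unfold uu TT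
  rw [llsq hx]
  have h1 : 0 ≤ Real.log (Real.log (Real.log k) + Real.log 2) :=
    Real.log_nonneg (by linarith [log2_pos])
  have hk' : (0 : ℝ) < k := by exact_mod_cast hk
  have h2 := mul_le_mul_of_nonneg_right hc h1
  gcongr

lemma TT_nonneg {j : ℕ} {x : ℝ} (hx : 1 ≤ x) : 0 ≤ TT j x := by
  unfold TT
  have h1 : 0 ≤ Real.log (x + Real.log 2) := Real.log_nonneg (by linarith [log2_pos])
  have h2 := log2_pos
  positivity

lemma TT_le {j : ℕ} {x : ℝ} (hx : 1 ≤ x) : TT j x ≤ 2 * ((j : ℝ) + 5) * x := by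
  unfold TT
  have h0 := log2_pos
  have h1 := log2_le
  have h2 : Real.log (x + Real.log 2) ≤ x + Real.log 2 - 1 :=
    Real.log_le_sub_one_of_pos (by linarith)
  have h3 : Real.log (x + Real.log 2) ≤ 2 * x := by linarith
  have h4 : ((j : ℝ) + 3) * Real.log (x + Real.log 2) ≤ ((j : ℝ) + 3) * (2 * x) :=
    mul_le_mul_of_nonneg_left h3 (by positivity)
  nlinarith

lemma pow_ge {U : ℝ} (h1 : U ≤ 1 / 2) (n : ℕ) :
    Real.exp (-(n * (U + 2 * U ^ 2))) ≤ (1 - U) ^ n := by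
  have h2 : 0 < 1 - U := by linarith
  have h3 := Real.one_sub_inv_le_log_of_pos h2
  have h4 : -(U + 2 * U ^ 2) ≤ 1 - (1 - U)⁻¹ := by
    have e : 1 - (1 - U)⁻¹ = -(U / (1 - U)) := by
      field_simp
      ring
    rw [e, neg_le_neg_iff, div_le_iff₀ h2]
    nlinarith [sq_nonneg U]
  have h5 : Real.exp (-(U + 2 * U ^ 2)) ≤ 1 - U := by
    rw [← Real.le_log_iff_exp_le h2]
    linarith
  calc Real.exp (-(n * (U + 2 * U ^ 2))) = Real.exp (-(U + 2 * U ^ 2)) ^ n := by
        rw [← Real.exp_nat_mul]; congr 1; ring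
    _ ≤ (1 - U) ^ n := pow_le_pow_left₀ (Real.exp_pos _).le h5 n

lemma exp_TT {j k : ℕ} (hx : 1 ≤ Real.log (Real.log k)) (hL : 0 < Real.log k) :
    Real.exp (-(TT j (Real.log (Real.log k)) + 1)) =
      Real.exp (-2) / (2 * Real.log k * (Real.log (Real.log k) + Real.log 2) ^ (j + 3)) := by
  have hp : 0 < Real.log (Real.log k) + Real.log 2 := by linarith [log2_pos]
  have e1 : -(TT j (Real.log (Real.log k)) + 1) = -2 - Real.log (Real.log k) - Real.log 2 -
      ((j + 3 : ℕ) : ℝ) * Real.log (Real.log (Real.log k) + Real.log 2) := by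
    unfold TT
    push_cast
    ring
  rw [e1, Real.exp_sub, Real.exp_sub, Real.exp_sub, Real.exp_log hL, Real.exp_log (by norm_num),
    Real.exp_nat_mul, Real.exp_log hp]
  rw [div_div, div_div]
  congr 1
  ring

lemma LLsq (k : ℕ) : LL k ^ 2 = Real.log (Real.log k) ^ 2 / k := by
  unfold LL
  rw [div_pow, Real.sq_sqrt (Nat.cast_nonneg k)]

lemma term_ge {k : ℕ} (hk2 : 2 ≤ k) (hx : 1 ≤ Real.log (Real.log k)) (hL : 0 < Real.log k)
    {c δ : ℝ} {j : ℕ} (hδ : 0 < δ) (hc : c ≤ j + 3) (hjk : j ≤ k)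
    (hT : TT j (Real.log (Real.log k)) ^ 2 ≤ k) :
    (δ ^ 2 * (δ / 2) ^ j * Real.exp (-2) / (j.factorial * 2 ^ (j + 4))) *
      (1 / ((k : ℝ) * Real.log k * Real.log (Real.log k))) ≤ |wj δ c j k| * (δ * LL k) ^ 2 := by
  set x := Real.log (Real.log k) with hxdef
  set T := TT j x with hTdef
  have hk : 0 < k := by omega
  have hk' : (0 : ℝ) < k := by exact_mod_cast hk
  have hk2' : (2 : ℝ) ≤ k := by exact_mod_cast hk2
  have hT0 : 0 ≤ T := TT_nonneg hx
  have hTk : T ≤ k := by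
    by_contra hcon
    push Not at hcon
    nlinarith
  have hU0 : 0 ≤ T / (2 * k) := by positivity
  have hU1 : T / (2 * k) ≤ 1 / 2 := by
    rw [div_le_iff₀ (by positivity)]
    linarith
  have hu := uu_le hk hx hc
  have h1 : Real.exp (-(T + 1)) ≤ (1 - T / (2 * k)) ^ (2 * k) := by
    refine le_trans ?_ (pow_ge hU1 (2 * k))
    apply Real.exp_le_exp.2
    have e : ((2 * k : ℕ) : ℝ) * (T / (2 * k) + 2 * (T / (2 * k)) ^ 2) = T + T ^ 2 / k := by
      push_cast
      field_simp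
    rw [e]
    have : T ^ 2 / k ≤ 1 := by
      rw [div_le_one hk']
      exact hT
    linarith
  have h2 : (1 - T / (2 * k)) ^ (2 * k) ≤ (1 - T / (2 * k)) ^ (2 * k - j) :=
    pow_le_pow_of_le_one (by linarith) (by linarith) (Nat.sub_le _ _)
  have h3 : (1 - T / (2 * k)) ^ (2 * k - j) ≤ (1 - uu c k) ^ (2 * k - j) :=
    pow_le_pow_left₀ (by linarith) (by linarith) _
  have h4 : Real.exp (-2) / (2 * Real.log k * (x + Real.log 2) ^ (j + 3)) ≤
      (1 - uu c k) ^ (2 * k - j) := by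
    rw [← exp_TT hx hL]
    exact h1.trans (h2.trans h3)
  have h5 : Real.exp (-2) / (2 * Real.log k * (2 * x) ^ (j + 3)) ≤
      Real.exp (-2) / (2 * Real.log k * (x + Real.log 2) ^ (j + 3)) := by
    have h6 := log2_le
    have h7 := log2_pos
    have h8 : x + Real.log 2 ≤ 2 * x := by linarith
    gcongr
  have h6 : ((k : ℝ) ^ j) / j.factorial ≤ ((2 * k).choose j : ℝ) := by
    refine le_trans ?_ (Nat.pow_le_choose (α := ℝ) j (2 * k))
    have h7 : (k : ℝ) ≤ ((2 * k + 1 - j : ℕ) : ℝ) := by exact_mod_cast (by omega)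
    gcongr
  have hll : ll δ k = δ * x / (2 * k) := by
    unfold ll
    rw [← hxdef]
    ring
  have h7 : ((δ / 2) ^ j * x ^ j) / j.factorial ≤ ((2 * k).choose j : ℝ) * ll δ k ^ j := by
    have h8 : (((k : ℝ) ^ j) / j.factorial) * ll δ k ^ j ≤ ((2 * k).choose j : ℝ) * ll δ k ^ j := by
      apply mul_le_mul_of_nonneg_right h6
      rw [hll]
      positivity
    refine le_trans (le_of_eq ?_) h8
    rw [hll, div_mul_eq_mul_div, ← mul_pow, ← mul_pow]
    congr 2
    field_simp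
  have h8 : ((δ / 2) ^ j * x ^ j) / j.factorial *
      (Real.exp (-2) / (2 * Real.log k * (2 * x) ^ (j + 3))) ≤ wj δ c j k := by
    unfold wj
    exact mul_le_mul h7 (h5.trans h4) (by positivity) (le_trans (by positivity) h7)
  have h9 := mul_le_mul_of_nonneg_right (h8.trans (le_abs_self _)) (sq_nonneg (δ * LL k))
  refine le_trans (le_of_eq ?_) h9
  have hLL : (δ * LL k) ^ 2 = δ ^ 2 * (x ^ 2 / k) := by rw [mul_pow, LLsq]
  rw [hLL]
  have hx0 : x ≠ 0 := by positivity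
  have hf : (j.factorial : ℝ) ≠ 0 := by positivity
  have e1 : (2 : ℝ) ^ (j + 4) = 2 * 2 ^ (j + 3) := by ring
  have e2 : (2 * x) ^ (j + 3) = 2 ^ (j + 3) * (x ^ j * x ^ 3) := by rw [mul_pow]; ring
  rw [e1, e2]
  have hxj : x ^ j ≠ 0 := pow_ne_zero _ hx0
  field_simp

lemma event (j : ℕ) : ∀ᶠ k : ℕ in atTop, 2 ≤ k ∧ 1 ≤ Real.log (Real.log k) ∧ 0 < Real.log k ∧
    j ≤ k ∧ TT j (Real.log (Real.log k)) ^ 2 ≤ k := by
  have t1 : Tendsto (fun k : ℕ => Real.log k) atTop atTop :=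
    Real.tendsto_log_atTop.comp tendsto_natCast_atTop_atTop
  have t2 : Tendsto (fun k : ℕ => Real.log (Real.log k)) atTop atTop :=
    Real.tendsto_log_atTop.comp t1
  have hC : (0 : ℝ) < 1 / (2 * ((j : ℝ) + 5)) ^ 2 := by positivity
  have t3 : ∀ᶠ k : ℕ in atTop, ‖Real.log (k : ℝ) ^ 2‖ ≤
      1 / (2 * ((j : ℝ) + 5)) ^ 2 * ‖id (k : ℝ)‖ :=
    tendsto_natCast_atTop_atTop.eventually
      ((Real.isLittleO_pow_log_id_atTop (n := 2)).def hC)
  filter_upwards [eventually_ge_atTop 2, t2.eventually_ge_atTop 1, t1.eventually_gt_atTop 0,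
    eventually_ge_atTop j, t3] with k h1 h2 h3 h4 h5
  refine ⟨h1, h2, h3, h4, ?_⟩
  have h6 := TT_le (j := j) h2
  have h7 := TT_nonneg (j := j) h2
  have h8 : Real.log (Real.log k) ≤ Real.log k := by
    have := Real.log_le_sub_one_of_pos h3
    linarith
  rw [Real.norm_eq_abs, abs_of_nonneg (sq_nonneg _), id, Real.norm_eq_abs,
    abs_of_nonneg (Nat.cast_nonneg k), div_mul_eq_mul_div, one_mul,
    le_div_iff₀ (by positivity)] at h5
  calc TT j (Real.log (Real.log k)) ^ 2 ≤ (2 * ((j : ℝ) + 5) * Real.log (Real.log k)) ^ 2 :=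
        pow_le_pow_left₀ h7 h6 2
    _ ≤ (2 * ((j : ℝ) + 5) * Real.log k) ^ 2 := by
        apply pow_le_pow_left₀ (by positivity)
        exact mul_le_mul_of_nonneg_left h8 (by positivity)
    _ = Real.log k ^ 2 * (2 * ((j : ℝ) + 5)) ^ 2 := by ring
    _ ≤ k := h5

theorem dv2_of (h : Pool.Agent.N273.BR.SR3) (_hw : Pool.Agent.N273.BR.WN2) :
    Pool.Agent.N273.BR.DV2 := by
  intro δ c j hδ hc hsum
  apply h.2
  have hs3 := (summable_nat_add_iff 3).2 hsum
  set C : ℝ := δ ^ 2 * (δ / 2) ^ j * Real.exp (-2) / (j.factorial * 2 ^ (j + 4)) with hCdef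
  have hC : 0 < C := by rw [hCdef]; positivity
  have hs4 := hs3.mul_left C⁻¹
  refine Summable.of_norm_bounded_eventually_nat hs4 ?_
  have hev := (tendsto_add_atTop_nat 3).eventually (event j)
  filter_upwards [hev] with n hn
  obtain ⟨h1, h2, h3, h4, h5⟩ := hn
  have h6 := term_ge h1 h2 h3 hδ hc h4 h5
  rw [← hCdef] at h6
  have e : ((n + 3 : ℕ) : ℝ) = (n : ℝ) + 3 := by push_cast; ring
  have hpos : 0 ≤ 1 / (((n : ℝ) + 3) * Real.log ((n : ℝ) + 3) *
      Real.log (Real.log ((n : ℝ) + 3))) := by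
    rw [e] at h2 h3
    positivity
  rw [Real.norm_eq_abs, abs_of_nonneg hpos]
  rw [e] at h6
  rw [← div_eq_inv_mul, le_div_iff₀ hC, mul_comm]
  convert h6 using 3

end Pool.Agent.N346.BR
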